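import Pool.Agent.Lib.MP_b5021c_nt.IfaceSF
import Pool.Agent.Lib.MP_b5021c_nt.B.H17.Nr3

/-!
# Board b5, chapter SF, row SF_TZA

The masses at a load of class `P`: `t = 1`, or `t_1 = ± (t_0 - 1)`.
-/

namespace Pool.Agent.B5.SFH40

open scoped LaurentPolynomial Topology
open Polynomial
open Pool.Agent.B5

theorem eval_divX (p : ℂ[X]) (z : ℂ) : z * p.divX.eval z = p.eval z - p.coeff 0 := by
  conv_rhs => rw [← Polynomial.divX_mul_X_add p]
  simp
  ring

/-- The polynomial `r` with `Re r = |z - b|² Re p` on the circle. -/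
noncomputable def wt (b t0 : ℝ) (p : ℂ[X]) : ℂ[X] :=
  C ((1 + b ^ 2 : ℝ) : ℂ) * p - C (b : ℂ) * (X * p) - C (b : ℂ) * p.divX - C ((b * t0 : ℝ) : ℂ) * X

theorem wt_re (b t0 : ℝ) (p : ℂ[X]) (h0 : p.coeff 0 = (t0 : ℂ)) (z : ℂ) (hz : ‖z‖ = 1) :
    ((wt b t0 p).eval z).re = ‖z - (b : ℂ)‖ ^ 2 * (p.eval z).re := by
  have hzz : z * (starRingEnd ℂ) z = 1 := by
    rw [Complex.mul_conj, Complex.normSq_eq_norm_sq, hz]; simp
  have hd : p.divX.eval z = (starRingEnd ℂ) z * (p.eval z - p.coeff 0) := by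
    rw [← eval_divX, ← mul_assoc, mul_comm ((starRingEnd ℂ) z) z, hzz, one_mul]
  have e1 : (wt b t0 p).eval z = ((1 + b ^ 2 : ℝ) : ℂ) * p.eval z - (b : ℂ) * (z * p.eval z)
      - (b : ℂ) * ((starRingEnd ℂ) z * (p.eval z - (t0 : ℂ))) - ((b * t0 : ℝ) : ℂ) * z := by
    unfold wt
    simp only [eval_sub, eval_mul, eval_C, eval_X, hd, h0]
  rw [e1]
  generalize p.eval z = w
  have h1 : z.re ^ 2 + z.im ^ 2 = 1 := by
    have := Complex.sq_norm z
    rw [hz, Complex.normSq_apply] at this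
    nlinarith
  rw [Complex.sq_norm, Complex.normSq_apply]
  simp only [Complex.sub_re, Complex.mul_re, Complex.ofReal_re, Complex.ofReal_im, Complex.sub_im,
    Complex.conj_re, Complex.conj_im, Complex.mul_im]
  have h2 : z.im ^ 2 = 1 - z.re ^ 2 := by linarith
  ring_nf
  rw [h2]
  ring

/-- Row SF_TZA. -/
theorem tza (hCzm : CzmS) (hNr : Nr3S) (hPmf : PmfS) : TzaS := by
  intro t q f T T' s W hL hC hT hq hT' hf ht hN hM
  obtain ⟨-, hk, h01⟩ := hNr ℤ t ht hN
  rcases h01 with h1 | h2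
  · exact Or.inl h1
  right
  have e0 : ∀ x : ℤ, (Coef.emb x : ℂ) = (x : ℂ) := fun x => rfl
  -- integers
  have hlt : |t.coeff 1| < t.coeff 0 := by
    have h := (hk 1 one_ne_zero).1
    rw [e0, e0, Complex.norm_intCast, Complex.intCast_re] at h
    exact_mod_cast h
  have h2' : 2 ≤ t.coeff 0 := by
    rw [e0, Complex.intCast_re] at h2
    exact_mod_cast h2
  -- symmetry
  have hsym : rsh t = t := by
    refine LaurentPolynomial.ext fun k => ?_
    rw [H17.rsh_coeff]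
    by_cases hk0 : k = 0
    · subst hk0
      rfl
    · have h := (hk k hk0).2
      rw [e0, e0] at h
      have h3 : t.coeff (-k) = t.coeff k := by
        have h4 : (starRingEnd ℂ) ((t.coeff k : ℤ) : ℂ) = ((t.coeff k : ℤ) : ℂ) := by simp
        rw [h4] at h
        exact_mod_cast h
      rw [h3]
      rfl
  obtain ⟨r, hr0, hre, -, hrn⟩ := hPmf ℤ t 0 (by simp) hsym
  obtain ⟨b, hb⟩ : ∃ b : ℝ, b = T'⁻¹ := ⟨_, rfl⟩
  have hT0 : T' ≠ 0 := by
    rintro rfl
    simp at hT'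
    linarith
  have hb1 : |b| < 1 := by
    rw [hb, abs_inv]
    exact inv_lt_one_of_one_lt₀ hT'
  have hv : ∀ z : ℂ, ‖z‖ = 1 → (r.eval z).re * ‖(cpz (q + X * f)).eval z‖ ^ 2 ≤
      ((cpz (q - X * f)).eval z * (starRingEnd ℂ) ((cpz (q + X * f)).eval z)).re ∧
      0 ≤ (r.eval z).re := by
    intro z hz
    have h := hM ⟨z, by simpa [Submonoid.unitSphere, mem_sphere_zero_iff_norm] using hz⟩
    have h3 := hre ⟨z, by simpa [Submonoid.unitSphere, mem_sphere_zero_iff_norm] using hz⟩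
    have h4 := (hN ⟨z, by simpa [Submonoid.unitSphere, mem_sphere_zero_iff_norm] using hz⟩).2
    rw [h3] at h h4
    exact ⟨h, h4⟩
  have hr0' : r.coeff 0 = ((t.coeff 0 : ℝ) : ℂ) := by
    rw [hr0, e0]; simp
  have hA := hCzm q f T T' s W (wt b (t.coeff 0) r) hL hC hT hq (by
    intro z hz
    rw [wt_re b _ r hr0' z hz, ← hb, mul_assoc]
    exact mul_le_mul_of_nonneg_left (hv z hz).1 (sq_nonneg _))
  have hB := hCzm q f T T' s W 0 hL hC hT hq (by
    intro z hz
    have h3 := hv z hz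
    have h4 : 0 ≤ ((cpz (q - X * f)).eval z *
        (starRingEnd ℂ) ((cpz (q + X * f)).eval z)).re :=
      (mul_nonneg h3.2 (sq_nonneg _)).trans h3.1
    simp only [eval_zero, Complex.zero_re, zero_mul]
    positivity)
  rw [← hb] at hA hB
  simp only [coeff_zero, Complex.zero_re, eval_zero, zero_add, sub_zero] at hB
  have hTT : 0 < T * T' := by
    have h3 : 0 ≤ (1 - |T⁻¹|) / (1 + |T⁻¹|) := by
      have : |T⁻¹| < 1 := by
        rw [abs_inv]
        exact inv_lt_one_of_one_lt₀ hT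
      apply div_nonneg (by linarith) (by positivity)
    have h4 := mul_nonneg h3 hB.1
    have h5 : 0 < b * T := by nlinarith [hB.2, sq_nonneg b]
    have h6 : b * T = T * T' * b ^ 2 := by
      rw [hb]; field_simp
    rw [h6] at h5
    have h7 : 0 < b ^ 2 := by
      rw [hb]; positivity
    exact (mul_pos_iff_of_pos_right h7).mp h5
  have hcoef : ((wt b (t.coeff 0) r).coeff 0).re =
      (1 + b ^ 2) * t.coeff 0 - 2 * b * t.coeff 1 := by
    have h3 : r.coeff 1 = ((2 * t.coeff 1 : ℝ) : ℂ) := by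
      have := hrn 0
      rw [e0] at this
      simpa using this
    unfold wt
    simp only [coeff_sub, coeff_C_mul, coeff_X_mul_zero, coeff_divX, coeff_X_zero, mul_zero,
      sub_zero, zero_add]
    rw [hr0', h3, ← Complex.ofReal_mul, ← Complex.ofReal_mul, ← Complex.ofReal_sub,
      Complex.ofReal_re]
    ring
  have hI := hA.1
  rw [hcoef] at hI
  -- arithmetic
  obtain ⟨k, hkd⟩ : ∃ k : ℤ, k = f.coeff 0 * q.coeff 0 := ⟨_, rfl⟩
  have hq0 := hL.q0
  have hk1 : |k| = |f.coeff 0| := by rw [hkd, abs_mul, hq0, mul_one]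
  rw [← hkd] at hI
  have hI2 : ((t.coeff 0 : ℝ) - 1) * (1 + b ^ 2) ≤ 2 * b * ((k : ℝ) + t.coeff 1) := by
    linarith
  have hkb : |k| ≤ 1 := by rw [hk1]; exact hf
  obtain ⟨hk2, hk3⟩ := abs_le.mp hkb
  obtain ⟨ht2, ht3⟩ := abs_lt.mp hlt
  have h2r : (2 : ℝ) ≤ t.coeff 0 := by exact_mod_cast h2'
  have hsgn : ∃ sg : ℤ, (sg = 1 ∨ sg = -1) ∧ 0 < sg * T' ∧ t.coeff 1 = sg * (t.coeff 0 - 1) ∧
      |k| = 1 := by
    rcases lt_or_gt_of_ne hT0 with hneg | hpos
    · have hb0 : b < 0 := by rw [hb]; exact inv_lt_zero.mpr hneg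
      rw [abs_of_neg hb0] at hb1
      have h5 : (t.coeff 0 : ℝ) - 1 < -((k : ℝ) + t.coeff 1) := by
        by_contra hc
        push Not at hc
        nlinarith [mul_pos (show (0 : ℝ) < t.coeff 0 - 1 by linarith)
          (show 0 < (1 + b) ^ 2 by nlinarith [show 0 < 1 + b by linarith])]
      have h6 : t.coeff 0 - 1 < -(k + t.coeff 1) := by exact_mod_cast h5
      have h7 : k = -1 := by omega
      refine ⟨-1, Or.inr rfl, by push_cast; linarith, by omega, by rw [h7]; rfl⟩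
    · have hb0 : 0 < b := by rw [hb]; exact inv_pos.mpr hpos
      rw [abs_of_pos hb0] at hb1
      have h5 : (t.coeff 0 : ℝ) - 1 < (k : ℝ) + t.coeff 1 := by
        by_contra hc
        push Not at hc
        nlinarith [mul_pos (show (0 : ℝ) < t.coeff 0 - 1 by linarith)
          (show 0 < (1 - b) ^ 2 by nlinarith [show 0 < 1 - b by linarith])]
      have h6 : t.coeff 0 - 1 < k + t.coeff 1 := by exact_mod_cast h5
      have h7 : k = 1 := by omega
      refine ⟨1, Or.inl rfl, by push_cast; linarith, by omega, by rw [h7]; rfl⟩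
  obtain ⟨sg, hs1, hs2, hs3, hs4⟩ := hsgn
  exact ⟨by rw [← hk1]; exact hs4, h2', hTT, sg, hs1, hs2, hs3⟩

end Pool.Agent.B5.SFH40
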